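import Mathlib
import Pool.Graph.R_seed8.Helper777.PP.Defs
set_option autoImplicit false

/-!
The objects of the library folder `Pool/Graph/R_seed8/Helper777/PP` with the weight `3` replaced by
an arbitrary odd weight `k + 2`, `k` odd.
-/

namespace Pool.Agent.KS6_20.PQ

open Complex Filter Topology

/-- the odd exponent `k`; the weight is `k + 2`. -/
class Wt where
  /-- the exponent -/
  k : ℕ
  odd : Odd k

variable [Wt]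

theorem Wt.one_le : 1 ≤ Wt.k := Wt.odd.pos

theorem Wt.odd2 : Odd (Wt.k + 2) := Wt.odd.add_even (by decide)

/-- `sg2 n = σ_{k+1}(n) = ∑_{d ∣ n} d^{k+1}` (`0` for `n = 0`). -/
def sg2 (n : ℕ) : ℕ := ∑ d ∈ n.divisors, d ^ (Wt.k + 1)

/-- `G z = ∑_{p ≥ 1} ∑_{n ∈ ℤ} (p z + n)^{-(k+2)}`. -/
noncomputable def G (z : ℂ) : ℂ :=
  ∑' q : ℕ × ℤ, ((((q.1 : ℂ) + 1) * z + (q.2 : ℂ))⁻¹) ^ (Wt.k + 2)

/-- `Sp z = ∑_{p, n ≥ 1} (p z + n)^{-(k+2)}`. -/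
noncomputable def Sp (z : ℂ) : ℂ :=
  ∑' q : ℕ × ℕ, ((((q.1 : ℂ) + 1) * z + ((q.2 : ℂ) + 1))⁻¹) ^ (Wt.k + 2)

/-- `Z3 = ζ(k+2)`. -/
noncomputable def Z3 : ℂ := ∑' n : ℕ, (((n : ℂ) + 1)⁻¹) ^ (Wt.k + 2)

/-- the period function. -/
noncomputable def h (z : ℂ) : ℂ := 2 * Sp z + Z3 * (1 + (z⁻¹) ^ (Wt.k + 2))

/-- the coefficients in `(d/du)^k` of `u ↦ w^{k+2} f(w)`, `w = -1/u`. -/
noncomputable def ecoef : ℕ → ℕ → Polynomial ℂ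
  | 0, 0 => Polynomial.X ^ (Wt.k + 2)
  | 0, (_ + 1) => 0
  | (k + 1), 0 => Polynomial.X ^ 2 * Polynomial.derivative (ecoef k 0)
  | (k + 1), (i + 1) =>
      Polynomial.X ^ 2 * (Polynomial.derivative (ecoef k (i + 1)) + ecoef k i)

/-- the jet of `G`. -/
noncomputable def jet (z : ℂ) (k : ℕ) : ℂ := iteratedDeriv k G z

/-- the jet of `h`. -/
noncomputable def hjet (w : ℂ) (k : ℕ) : ℂ := iteratedDeriv k h w

/-- the affine substitution `y ↦ E_w (y - c)`. -/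
noncomputable def aff (w : ℂ) (c y : ℕ → ℂ) (k : ℕ) : ℂ :=
  ∑ i ∈ Finset.range (k + 1), (ecoef k i).eval w * (y i - c i)

/-- `F = ∑ σ_{k+1}(n) Xⁿ`. -/
noncomputable def F : PowerSeries ℚ := PowerSeries.mk (fun n : ℕ => (sg2 n : ℚ))

/-- linear substitution `X_k ↦ ∑_{i ≤ k} e_{k,i}(w) X_i`. -/
noncomputable def Lw (w : ℂ) : MvPolynomial ℕ ℂ →ₐ[ℂ] MvPolynomial ℕ ℂ :=
  MvPolynomial.bind₁ (fun k : ℕ => ∑ i ∈ Finset.range (k + 1),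
    MvPolynomial.C ((ecoef k i).eval w) * (MvPolynomial.X i : MvPolynomial ℕ ℂ))

end Pool.Agent.KS6_20.PQ
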