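import Pool.Agent.KS6_20.PQ.Prod
set_option autoImplicit false

/-!
# D-algebraicity of products with odd exponents
-/

namespace Pool.Agent.KS6_20.PQ

open PowerSeries
open Pool.PlanePD (tau th elim_exists elim_transc elim_dalg elim_fin bb bb_zero ld_coeff_th)

/-- `f` is differentially algebraic (over `ℚ`): the series `t, f, f', f'', ...` satisfy a nontrivial
polynomial relation. -/
def DAlgebraic (f : PowerSeries ℚ) : Prop :=
  ∃ Q : MvPolynomial ℕ ℚ, Q ≠ 0 ∧
    MvPolynomial.aeval (fun i : ℕ => if i = 0 then (PowerSeries.X : PowerSeries ℚ)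
      else (⇑(PowerSeries.derivative ℚ))^[i - 1] f) Q = 0

/-- `s` is a finite set, algebraic over which is closed under the derivation. -/
structure Closed (s : Set (PowerSeries ℚ)) : Prop where
  fin : s.Finite
  der : ∀ y ∈ s, IsAlgebraic (Algebra.adjoin ℚ s) (PowerSeries.derivative ℚ y)

theorem Closed.alg {s : Set (PowerSeries ℚ)} (hs : Closed s) {a : PowerSeries ℚ}
    (ha : IsAlgebraic (Algebra.adjoin ℚ s) a) :
    IsAlgebraic (Algebra.adjoin ℚ s) (PowerSeries.derivative ℚ a) :=
  elim_dalg (PowerSeries.derivative ℚ) s hs.der ha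

theorem alg_mono {s t : Set (PowerSeries ℚ)} (h : s ⊆ t) {a : PowerSeries ℚ}
    (ha : IsAlgebraic (Algebra.adjoin ℚ s) a) : IsAlgebraic (Algebra.adjoin ℚ t) a := by
  obtain ⟨p, hp, hpa⟩ := ha
  have hle : Algebra.adjoin ℚ s ≤ Algebra.adjoin ℚ t := Algebra.adjoin_mono h
  refine ⟨p.map (Subalgebra.inclusion hle).toRingHom, ?_, ?_⟩
  · rwa [Ne, Polynomial.map_eq_zero_iff (Subalgebra.inclusion_injective hle)]
  · rw [Polynomial.aeval_def, Polynomial.eval₂_map] at *
    exact hpa

theorem Closed.union {s t : Set (PowerSeries ℚ)} (hs : Closed s) (ht : Closed t) :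
    Closed (s ∪ t) where
  fin := hs.fin.union ht.fin
  der := by
    rintro y (hy | hy)
    · exact alg_mono Set.subset_union_left (hs.der y hy)
    · exact alg_mono Set.subset_union_right (ht.der y hy)

theorem closed_of_dalgebraic {P : PowerSeries ℚ} (h : DAlgebraic P) :
    ∃ s : Set (PowerSeries ℚ), Closed s ∧ IsAlgebraic (Algebra.adjoin ℚ s) (X : PowerSeries ℚ) ∧
      IsAlgebraic (Algebra.adjoin ℚ s) P := by
  obtain ⟨Q, hQ, hQ0⟩ := h
  set x : ℕ → PowerSeries ℚ := fun i : ℕ => if i = 0 then (PowerSeries.X : PowerSeries ℚ)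
        else (⇑(PowerSeries.derivative ℚ))^[i - 1] P with hx
  have hx0 : x 0 = PowerSeries.X := by simp [hx]
  have hx1 : x 1 = P := by simp [hx]
  have hxs : ∀ i, 1 ≤ i → PowerSeries.derivative ℚ (x i) = x (i + 1) := by
    intro i hi
    obtain ⟨j, rfl⟩ := Nat.exists_eq_add_of_le hi
    simp only [hx]
    rw [if_neg (by omega), if_neg (by omega)]
    have e1 : 1 + j - 1 = j := by omega
    have e2 : 1 + j + 1 - 1 = j + 1 := by omega
    rw [e1, e2, Function.iterate_succ_apply']
  have hnot : ¬ AlgebraicIndependent ℚ x := by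
    intro h
    exact hQ (algebraicIndependent_iff.1 h Q hQ0)
  obtain ⟨n, hn1, hn⟩ := elim_exists x (by rw [hx0]; exact elim_transc) hnot
  set s : Set (PowerSeries ℚ) := x '' Set.Iio n with hs
  have hmem : ∀ i, i < n → IsAlgebraic (Algebra.adjoin ℚ s) (x i) := fun i hi =>
    isAlgebraic_algebraMap (⟨x i, Algebra.subset_adjoin ⟨i, hi, rfl⟩⟩ : Algebra.adjoin ℚ s)
  refine ⟨s, ⟨(Set.finite_Iio n).image x, ?_⟩, ?_, ?_⟩
  · rintro _ ⟨i, hi, rfl⟩
    by_cases h0 : i = 0
    · rw [h0, hx0, PowerSeries.derivative_X]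
      exact isAlgebraic_one
    · rw [hxs i (by omega)]
      have hi' : i < n := hi
      by_cases h2 : i + 1 = n
      · rw [h2]; exact hn
      · exact hmem _ (by omega)
  · rw [← hx0]; exact hmem 0 (by omega)
  · rw [← hx1]
    by_cases h2 : 1 = n
    · rw [h2]; exact hn
    · exact hmem _ (by omega)

/-- the series `F` is hypertranscendental: it is not algebraic over a closed finite set. -/
theorem not_alg [Wt] {s : Set (PowerSeries ℚ)} (hs : Closed s)
    (hX : IsAlgebraic (Algebra.adjoin ℚ s) (X : PowerSeries ℚ)) :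
    ¬ IsAlgebraic (Algebra.adjoin ℚ s) F := by
  intro hF
  have hth : ∀ {a}, IsAlgebraic (Algebra.adjoin ℚ s) a → IsAlgebraic (Algebra.adjoin ℚ s) (th a) :=
    fun ha => hX.mul (hs.alg ha)
  have hy : ∀ k, IsAlgebraic (Algebra.adjoin ℚ s) (th^[k] F) := by
    intro k
    induction k with
    | zero => exact hF
    | succ k ih => rw [Function.iterate_succ_apply']; exact hth ih
  refine elim_fin (fun k => th^[k] F) s hs.fin hy ?_
  rw [algebraicIndependent_iff]
  exact fun R hR => F_hyper R hR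

theorem not_dalgebraic_F [Wt] : ¬ DAlgebraic F := by
  intro h
  obtain ⟨s, hs, hX, hF⟩ := closed_of_dalgebraic h
  exact not_alg hs hX hF

/-- a nonzero solution of `t f' = (c F + g) f` with `g` D-algebraic is not D-algebraic. -/
theorem not_dalgebraic_solution [Wt] (c : ℚ) (hc : c ≠ 0) (g f : PowerSeries ℚ)
    (hg : DAlgebraic g) (hf : f ≠ 0)
    (h : X * PowerSeries.derivative ℚ f = (C c * F + g) * f) : ¬ DAlgebraic f := by
  intro hd
  obtain ⟨s, hs, hX, hfs⟩ := closed_of_dalgebraic hd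
  obtain ⟨t, ht, -, hgt⟩ := closed_of_dalgebraic hg
  have hu := hs.union ht
  have hX' := alg_mono (t := s ∪ t) Set.subset_union_left hX
  have hf' := alg_mono (t := s ∪ t) Set.subset_union_left hfs
  have hg' := alg_mono (t := s ∪ t) Set.subset_union_right hgt
  have h1 : IsAlgebraic (Algebra.adjoin ℚ (s ∪ t)) (C c * F + g) := by
    refine IsAlgebraic.of_mul (mem_nonZeroDivisors_of_ne_zero hf) hf' ?_
    rw [mul_comm, ← h]
    exact hX'.mul (hu.alg hf')
  have h2 : IsAlgebraic (Algebra.adjoin ℚ (s ∪ t)) (C c⁻¹ * ((C c * F + g) - g)) := by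
    refine IsAlgebraic.mul ?_ (h1.sub hg')
    have : (C c⁻¹ : PowerSeries ℚ) = algebraMap (Algebra.adjoin ℚ (s ∪ t)) (PowerSeries ℚ)
        (algebraMap ℚ _ c⁻¹) := rfl
    rw [this]
    exact isAlgebraic_algebraMap _
  have h3 : (C c⁻¹ * ((C c * F + g) - g) : PowerSeries ℚ) = F := by
    rw [add_sub_cancel_right, ← mul_assoc, ← map_mul, inv_mul_cancel₀ hc, map_one, one_mul]
  rw [h3] at h2
  exact not_alg hu hX' h2

theorem dalgebraic_zero : DAlgebraic 0 := by
  refine ⟨MvPolynomial.X 1, MvPolynomial.X_ne_zero 1, ?_⟩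
  simp

theorem not_dalgebraic_product (k : ℕ) (hk : Odd k) : ¬ DAlgebraic (infiniteProduct k) := by
  let _ : Wt := ⟨k, hk⟩
  refine not_dalgebraic_solution 1 one_ne_zero 0 _ dalgebraic_zero (infinite_ne k) ?_
  rw [map_one, one_mul, add_zero, mul_comm F]
  exact th_infinite

/-- MacMahon's formula in the form needed here. -/
theorem planePartitions_eq :
    (PowerSeries.mk (fun n : ℕ => ((bb n n : ℕ) : ℚ))) = infiniteProduct 1 := by
  let _ : Wt := ⟨1, by decide⟩
  have hF : (Pool.PlanePD.F : PowerSeries ℚ) = F := rfl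
  refine unique (H := F) ?_ ?_ th_infinite ?_
  · simp [F, sg2]
  · rw [← hF]
    exact Pool.PlanePD.macmahon
  · rw [PowerSeries.coeff_mk, bb_zero]
    simp [infiniteProduct, finiteProduct]

end Pool.Agent.KS6_20.PQ
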