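import Pool.Agent.KS6_20.PQ.Defs

set_option autoImplicit false

namespace Pool.Agent.KS6_20.PQ

open Complex Filter Topology
open Pool.PlanePD (tau th)

variable [Wt]

/-- absolute convergence of the half-plane lattice sum. -/
theorem summable_half (z : ℂ) (hz : 0 < z.im) :
    Summable (fun q : ℕ × ℤ => ‖((((q.1 : ℂ) + 1) * z + (q.2 : ℂ))⁻¹) ^ (Wt.k + 2)‖) := by
  have h := EisensteinSeries.summable_norm_eisSummand (k := ((Wt.k + 2 : ℕ) : ℤ))
    (by have := Wt.one_le; push_cast; omega) (⟨z, hz⟩ : UpperHalfPlane)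
  have hinj : Function.Injective (fun q : ℕ × ℤ => (![(q.1 : ℤ) + 1, q.2] : Fin 2 → ℤ)) := by
    intro a b hab
    have h0 := congrFun hab 0
    have h1 := congrFun hab 1
    simp only [Matrix.cons_val_zero, Matrix.cons_val_one] at h0 h1
    exact Prod.ext (by omega) h1
  have h2 := h.comp_injective hinj
  refine h2.congr (fun q => ?_)
  simp only [Function.comp, EisensteinSeries.eisSummand, Matrix.cons_val_zero,
    Matrix.cons_val_one]
  rw [norm_zpow, norm_pow, norm_inv, zpow_neg, inv_pow]
  rw [zpow_natCast]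
  push_cast
  rfl

end Pool.Agent.KS6_20.PQ
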