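import Pool.Agent.KS6_20.PQ.Defs
import Pool.Agent.KS6_20.PQ.P_summable_half

set_option autoImplicit false

namespace Pool.Agent.KS6_20.PQ

open Complex Filter Topology
open Pool.PlanePD (tau th)

variable [Wt]

theorem im_lin_11837 (q : ℕ × ℤ) (z : ℂ) :
    (((q.1 : ℂ) + 1) * z + (q.2 : ℂ)).im = ((q.1 : ℝ) + 1) * z.im := by
  have h1 : ((q.1 : ℂ) + 1) = (((q.1 : ℝ) + 1 : ℝ) : ℂ) := by push_cast; rfl
  have h2 : ((q.2 : ℂ)).im = 0 := Complex.intCast_im _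
  rw [Complex.add_im, h2, h1, Complex.im_ofReal_mul, add_zero]

/-- `G` is holomorphic on the upper half plane. -/
theorem G_diff : DifferentiableOn ℂ G {z : ℂ | 0 < z.im} := by
  intro z0 hz0
  have hB : 0 < z0.im := hz0
  set U : Set ℂ := Metric.ball z0 (z0.im / 2) with hU
  have himU : ∀ z ∈ U, 0 < z.im := by
    intro z hz
    rw [hU, Metric.mem_ball, dist_eq_norm] at hz
    have h1 := Complex.abs_im_le_norm (z - z0)
    rw [Complex.sub_im] at h1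
    have h2 := neg_abs_le (z.im - z0.im)
    linarith
  have hne : ∀ (q : ℕ × ℤ) (z : ℂ), 0 < z.im → ((q.1 : ℂ) + 1) * z + (q.2 : ℂ) ≠ 0 := by
    intro q z hz h0
    have h1 := im_lin_11837 q z
    rw [h0, Complex.zero_im] at h1
    have h2 : 0 < ((q.1 : ℝ) + 1) * z.im := by positivity
    linarith
  have hdiff : DifferentiableOn ℂ (fun z : ℂ => ∑' q : ℕ × ℤ,
      ((((q.1 : ℂ) + 1) * z + (q.2 : ℂ))⁻¹) ^ (Wt.k + 2)) U := by
    refine differentiableOn_tsum_of_summable_norm ((summable_half z0 hz0).mul_left ((2 : ℝ) ^ (Wt.k + 2))) ?_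
      Metric.isOpen_ball ?_
    · intro q
      refine DifferentiableOn.pow (DifferentiableOn.inv ?_ (fun z hz => hne q z (himU z hz))) (Wt.k + 2)
      fun_prop
    · intro q z hz
      have h1 := im_lin_11837 q z0
      have h2 : ((q.1 : ℝ) + 1) * z0.im ≤ ‖((q.1 : ℂ) + 1) * z0 + (q.2 : ℂ)‖ := by
        rw [← h1]
        exact (le_abs_self _).trans (Complex.abs_im_le_norm _)
      rw [hU, Metric.mem_ball, dist_eq_norm] at hz
      have h3 : ‖((q.1 : ℂ) + 1) * z0 + (q.2 : ℂ)‖ ≤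
          ‖((q.1 : ℂ) + 1) * z + (q.2 : ℂ)‖ + ((q.1 : ℝ) + 1) * ‖z - z0‖ := by
        have e1 : ((q.1 : ℂ) + 1) * z0 + (q.2 : ℂ) =
            (((q.1 : ℂ) + 1) * z + (q.2 : ℂ)) - ((q.1 : ℂ) + 1) * (z - z0) := by ring
        have e2 : ‖((q.1 : ℂ) + 1)‖ = (q.1 : ℝ) + 1 := by
          have : ((q.1 : ℂ) + 1) = ((q.1 + 1 : ℕ) : ℂ) := by push_cast; rfl
          rw [this, Complex.norm_natCast]
          push_cast
          rfl
        rw [e1]
        refine (norm_sub_le _ _).trans ?_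
        rw [norm_mul, e2]
      have h4 : ((q.1 : ℝ) + 1) * ‖z - z0‖ ≤ ((q.1 : ℝ) + 1) * (z0.im / 2) :=
        mul_le_mul_of_nonneg_left hz.le (by positivity)
      have h5 : ‖((q.1 : ℂ) + 1) * z0 + (q.2 : ℂ)‖ ≤ 2 * ‖((q.1 : ℂ) + 1) * z + (q.2 : ℂ)‖ := by
        linarith
      have h6 : 0 < ‖((q.1 : ℂ) + 1) * z0 + (q.2 : ℂ)‖ := norm_pos_iff.2 (hne q z0 hz0)
      have h7 : ‖((q.1 : ℂ) + 1) * z + (q.2 : ℂ)‖⁻¹ ≤
          2 * ‖((q.1 : ℂ) + 1) * z0 + (q.2 : ℂ)‖⁻¹ := by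
        have h8 : 0 < ‖((q.1 : ℂ) + 1) * z + (q.2 : ℂ)‖ := by linarith
        rw [inv_le_comm₀ h8 (by positivity), mul_inv, inv_inv]
        linarith
      rw [norm_pow, norm_pow, norm_inv, norm_inv]
      calc ‖((q.1 : ℂ) + 1) * z + (q.2 : ℂ)‖⁻¹ ^ (Wt.k + 2)
          ≤ (2 * ‖((q.1 : ℂ) + 1) * z0 + (q.2 : ℂ)‖⁻¹) ^ (Wt.k + 2) :=
            pow_le_pow_left₀ (by positivity) h7 _
        _ = 2 ^ (Wt.k + 2) * ‖((q.1 : ℂ) + 1) * z0 + (q.2 : ℂ)‖⁻¹ ^ (Wt.k + 2) := mul_pow _ _ _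
  have hmem : U ∈ nhds z0 := Metric.ball_mem_nhds z0 (by linarith)
  exact (hdiff.differentiableAt hmem).differentiableWithinAt

end Pool.Agent.KS6_20.PQ
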