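import Pool.Agent.KS6_20.PQ.Defs

set_option autoImplicit false

namespace Pool.Agent.KS6_20.PQ

open Complex Filter Topology
open Pool.PlanePD (tau th)

variable [Wt]

theorem Sp_diff_low (z : ℂ) (hz : z ∈ slitPlane) :
    ∃ c : ℝ, 0 < c ∧ ∀ w : ℂ, ‖w - z‖ < c → ∀ P N : ℝ, 0 < P → 0 < N →
      c * (P + N) ≤ ‖(P : ℂ) * w + N‖ := by
  have hcont : ContinuousOn (fun s : ℝ => ‖(s : ℂ) * z + (1 - s)‖) (Set.Icc 0 1) := by
    fun_prop
  obtain ⟨s₀, hs₀, hmin⟩ := isCompact_Icc.exists_isMinOn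
    (Set.nonempty_Icc.2 (zero_le_one' ℝ)) hcont
  have hpos : 0 < ‖(s₀ : ℂ) * z + (1 - s₀)‖ := by
    rw [norm_pos_iff]
    intro h
    rw [mem_slitPlane_iff] at hz
    have e1 := congrArg Complex.re h
    have e2 := congrArg Complex.im h
    simp at e1 e2
    obtain ⟨h0, h1⟩ := hs₀
    rcases e2 with e2 | e2
    · subst e2
      norm_num at e1
    · rcases hz with hz | hz
      · by_cases h2 : s₀ = 0
        · subst h2
          norm_num at e1
        · have h3 : 0 < s₀ := lt_of_le_of_ne h0 (Ne.symm h2)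
          nlinarith [mul_pos h3 hz]
      · exact hz e2
  set c₀ := ‖(s₀ : ℂ) * z + (1 - s₀)‖ with hc₀
  refine ⟨c₀ / 2, by positivity, ?_⟩
  intro w hw P N hP hN
  have hPN : 0 < P + N := by positivity
  have h1 : c₀ * (P + N) ≤ ‖(P : ℂ) * z + N‖ := by
    have hs : P / (P + N) ∈ Set.Icc (0 : ℝ) 1 :=
      ⟨by positivity, by rw [div_le_one hPN]; linarith⟩
    have h2 := isMinOn_iff.1 hmin _ hs
    have h3 : (P : ℂ) * z + N = ((P + N : ℝ) : ℂ) *
        (((P / (P + N) : ℝ) : ℂ) * z + (1 - ((P / (P + N) : ℝ) : ℂ))) := by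
      have : ((P : ℂ) + N) ≠ 0 := by exact_mod_cast hPN.ne'
      push_cast
      field_simp
      ring
    rw [h3, norm_mul, Complex.norm_real, Real.norm_of_nonneg hPN.le, mul_comm]
    exact mul_le_mul_of_nonneg_left h2 hPN.le
  have h4 : (P : ℂ) * w + N = ((P : ℂ) * z + N) + P * (w - z) := by ring
  have h5 : ‖(P : ℂ) * (w - z)‖ ≤ P * (c₀ / 2) := by
    rw [norm_mul, Complex.norm_real, Real.norm_of_nonneg hP.le]
    exact mul_le_mul_of_nonneg_left hw.le hP.le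
  have h6 : ‖(P : ℂ) * z + N‖ - ‖(P : ℂ) * (w - z)‖ ≤ ‖(P : ℂ) * w + N‖ := by
    rw [h4]
    have := norm_sub_norm_le ((P : ℂ) * z + N) (-((P : ℂ) * (w - z)))
    rw [norm_neg, sub_neg_eq_add] at this
    exact this
  nlinarith

theorem Sp_diff_sum : Summable (fun q : ℕ × ℕ =>
    ((q.1 : ℝ) + 1) ^ (-(3 / 2) : ℝ) * ((q.2 : ℝ) + 1) ^ (-(3 / 2) : ℝ)) := by
  have h1 : Summable (fun n : ℕ => ((n : ℝ) + 1) ^ (-(3 / 2) : ℝ)) := by
    have h2 : Summable (fun n : ℕ => (n : ℝ) ^ (-(3 / 2) : ℝ)) :=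
      Real.summable_nat_rpow.2 (by norm_num)
    have h3 := (summable_nat_add_iff 1).2 h2
    simpa using h3
  exact h1.mul_of_nonneg h1 (fun n => by positivity) (fun n => by positivity)

theorem Sp_diff_term (P N c : ℝ) (hc : 0 < c) (hP1 : 1 ≤ P) (hN1 : 1 ≤ N) (w : ℂ)
    (h : c * (P + N) ≤ ‖(P : ℂ) * w + N‖) :
    ‖(((P : ℂ) * w + N)⁻¹) ^ (Wt.k + 2)‖ ≤
      (c⁻¹) ^ (Wt.k + 2) * (P ^ (-(3 / 2) : ℝ) * N ^ (-(3 / 2) : ℝ)) := by
  have hP : 0 < P := by linarith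
  have hN : 0 < N := by linarith
  have hPN : 0 < P + N := by positivity
  have h1 : (P * N) ^ (1 / 2 : ℝ) ≤ P + N := by
    rw [← Real.sqrt_eq_rpow]
    apply Real.sqrt_le_iff.2
    constructor
    · positivity
    · nlinarith [mul_pos hP hN]
  have h2 : P ^ (-(3 / 2) : ℝ) * N ^ (-(3 / 2) : ℝ) = (((P * N) ^ (1 / 2 : ℝ))⁻¹) ^ 3 := by
    rw [← Real.mul_rpow hP.le hN.le, ← Real.rpow_neg (by positivity), ← Real.rpow_natCast,
      ← Real.rpow_mul (by positivity)]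
    norm_num
  have h3 : (((P * N) ^ (1 / 2 : ℝ))⁻¹) ^ (Wt.k + 2) ≤ (((P * N) ^ (1 / 2 : ℝ))⁻¹) ^ 3 := by
    refine pow_le_pow_of_le_one (by positivity) ?_ (by have := Wt.one_le; omega)
    exact inv_le_one_of_one_le₀ (Real.one_le_rpow (by nlinarith) (by norm_num))
  rw [h2]
  refine le_trans ?_ (mul_le_mul_of_nonneg_left h3 (by positivity))
  rw [← mul_pow, norm_pow, norm_inv]
  apply pow_le_pow_left₀ (by positivity)
  rw [← mul_inv]
  apply inv_anti₀
  · positivity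
  · exact le_trans (mul_le_mul_of_nonneg_left h1 hc.le) h

/-- `Sp` is holomorphic on the slit plane `ℂ ∖ (-∞, 0]`, with absolute convergence. -/
theorem Sp_diff : DifferentiableOn ℂ Sp slitPlane ∧
    ∀ z ∈ slitPlane, Summable (fun q : ℕ × ℕ =>
      ‖((((q.1 : ℂ) + 1) * z + ((q.2 : ℂ) + 1))⁻¹) ^ (Wt.k + 2)‖) := by
  constructor
  · intro z hz
    obtain ⟨c, hc, hlow⟩ := Sp_diff_low z hz
    have hlow' : ∀ (q : ℕ × ℕ) (w : ℂ), w ∈ Metric.ball z c →
        c * (((q.1 : ℝ) + 1) + ((q.2 : ℝ) + 1)) ≤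
          ‖(((q.1 : ℝ) + 1 : ℝ) : ℂ) * w + (((q.2 : ℝ) + 1 : ℝ) : ℂ)‖ := by
      intro q w hw
      rw [Metric.mem_ball, dist_eq_norm] at hw
      exact hlow w hw _ _ (by positivity) (by positivity)
    have h := differentiableOn_tsum_of_summable_norm (U := Metric.ball z c)
      (F := fun (q : ℕ × ℕ) (w : ℂ) => ((((q.1 : ℂ) + 1) * w + ((q.2 : ℂ) + 1))⁻¹) ^ (Wt.k + 2))
      (Sp_diff_sum.mul_left ((c⁻¹) ^ (Wt.k + 2)))
      (by
        intro q w hw
        apply DifferentiableAt.differentiableWithinAt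
        apply DifferentiableAt.pow
        apply DifferentiableAt.inv
        · fun_prop
        · intro h0
          have h1 := hlow' q w hw
          push_cast at h1
          rw [h0, norm_zero] at h1
          have : 0 < c * (((q.1 : ℝ) + 1) + ((q.2 : ℝ) + 1)) := by positivity
          linarith)
      Metric.isOpen_ball
      (by
        intro q w hw
        have h1 := Sp_diff_term ((q.1 : ℝ) + 1) ((q.2 : ℝ) + 1) c hc
          (by linarith [(Nat.cast_nonneg q.1 : (0:ℝ) ≤ q.1)])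
          (by linarith [(Nat.cast_nonneg q.2 : (0:ℝ) ≤ q.2)]) w (hlow' q w hw)
        push_cast at h1
        exact h1)
    exact (h.differentiableAt (Metric.isOpen_ball.mem_nhds (Metric.mem_ball_self hc))).differentiableWithinAt
  · intro z hz
    obtain ⟨c, hc, hlow⟩ := Sp_diff_low z hz
    refine Summable.of_nonneg_of_le (fun q => norm_nonneg _) (fun q => ?_)
      (Sp_diff_sum.mul_left ((c⁻¹) ^ (Wt.k + 2)))
    have h1 := Sp_diff_term ((q.1 : ℝ) + 1) ((q.2 : ℝ) + 1) c hc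
      (by linarith [(Nat.cast_nonneg q.1 : (0:ℝ) ≤ q.1)])
      (by linarith [(Nat.cast_nonneg q.2 : (0:ℝ) ≤ q.2)]) z (hlow z (by simpa using hc) _ _ (by positivity) (by positivity))
    push_cast at h1
    exact h1

end Pool.Agent.KS6_20.PQ
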