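import Pool.Agent.KS6_20.PQ.Defs
import Pool.Agent.KS6_20.PQ.P_summable_half
import Pool.Agent.KS6_20.PQ.P_Sp_diff

set_option autoImplicit false

namespace Pool.Agent.KS6_20.PQ

open Complex Filter Topology
open Pool.PlanePD (tau th)

variable [Wt]

theorem split_sum (f : ℕ × ℤ → ℂ) (hf : Summable f) :
    ∑' q, f q = (∑' q : ℕ × ℕ, f (q.1, (q.2 : ℤ) + 1)) + (∑' p : ℕ, f (p, 0))
      + ∑' q : ℕ × ℕ, f (q.1, -((q.2 : ℤ) + 1)) := by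
  have i1 : Function.Injective (fun q : ℕ × ℕ => ((q.1, (q.2 : ℤ) + 1) : ℕ × ℤ)) := by
    rintro ⟨a, b⟩ ⟨c, d⟩ h
    simp only [Prod.mk.injEq] at h
    ext <;> simp <;> omega
  have i2 : Function.Injective (fun p : ℕ => ((p, 0) : ℕ × ℤ)) := by
    intro a b h
    simpa using h
  have i3 : Function.Injective (fun q : ℕ × ℕ => ((q.1, -((q.2 : ℤ) + 1)) : ℕ × ℤ)) := by
    rintro ⟨a, b⟩ ⟨c, d⟩ h
    simp only [Prod.mk.injEq] at h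
    ext <;> simp <;> omega
  have s1 : Summable (fun q : ℕ × ℕ => f (q.1, (q.2 : ℤ) + 1)) := hf.comp_injective i1
  have s2 : Summable (fun p : ℕ => f (p, 0)) := hf.comp_injective i2
  have s3 : Summable (fun q : ℕ × ℕ => f (q.1, -((q.2 : ℤ) + 1))) := hf.comp_injective i3
  rw [hf.tsum_prod, s1.tsum_prod, s3.tsum_prod]
  have hp : ∀ p : ℕ, ∑' n : ℤ, f (p, n)
      = ((∑' m : ℕ, f (p, (m : ℤ) + 1)) + f (p, 0)) + ∑' m : ℕ, f (p, -((m : ℤ) + 1)) := by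
    intro p
    have t0 : Summable (fun n : ℤ => f (p, n)) := hf.prod_factor p
    have t1 : Summable (fun n : ℕ => f (p, (n : ℤ))) :=
      t0.comp_injective (i := fun n : ℕ => (n : ℤ)) (fun a b h => Int.ofNat.inj h)
    have t2 : Summable (fun n : ℕ => f (p, -((n : ℤ) + 1))) := s3.prod_factor p
    have e := tsum_of_nat_of_neg_add_one (f := fun n : ℤ => f (p, n)) t1 t2
    rw [e, t1.tsum_eq_zero_add]
    simp only [Nat.cast_zero, Nat.cast_add, Nat.cast_one]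
    ring
  simp_rw [hp]
  have u1 : Summable (fun p : ℕ => ∑' m : ℕ, f (p, (m : ℤ) + 1)) := s1.prod
  have u3 : Summable (fun p : ℕ => ∑' m : ℕ, f (p, -((m : ℤ) + 1))) := s3.prod
  rw [(u1.add s2).tsum_add u3, u1.tsum_add s2]

/-- the functional equation (rearrangement of absolutely convergent lattice sums). -/
theorem G_func (z : ℂ) (hz : 0 < z.im) : G z = (z⁻¹) ^ (Wt.k + 2) * G (-z⁻¹) + h z := by
  have hz0 : z ≠ 0 := by
    rintro rfl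
    simp at hz
  have him : 0 < (-z⁻¹).im := by
    rw [Complex.neg_im, Complex.inv_im, neg_div, neg_neg]
    exact div_pos hz (Complex.normSq_pos.2 hz0)
  have hs1 : Summable (fun q : ℕ × ℤ => ((((q.1 : ℂ) + 1) * z + (q.2 : ℂ))⁻¹) ^ (Wt.k + 2)) :=
    (summable_half z hz).of_norm
  have hs2 : Summable (fun q : ℕ × ℤ => ((((q.1 : ℂ) + 1) * (-z⁻¹) + (q.2 : ℂ))⁻¹) ^ (Wt.k + 2)) :=
    (summable_half _ him).of_norm
  have key : ∀ q : ℕ × ℤ, (z⁻¹) ^ (Wt.k + 2) * ((((q.1 : ℂ) + 1) * (-z⁻¹) + (q.2 : ℂ))⁻¹) ^ (Wt.k + 2)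
      = (((q.2 : ℂ) * z - ((q.1 : ℂ) + 1))⁻¹) ^ (Wt.k + 2) := by
    intro q
    rw [← mul_pow, ← mul_inv]
    congr 2
    rw [mul_add, mul_neg, mul_neg, mul_comm z (((q.1 : ℂ) + 1) * z⁻¹), mul_assoc,
      inv_mul_cancel₀ hz0]
    ring
  have hs3 : Summable (fun q : ℕ × ℤ => (((q.2 : ℂ) * z - ((q.1 : ℂ) + 1))⁻¹) ^ (Wt.k + 2)) := by
    refine (hs2.mul_left ((z⁻¹) ^ (Wt.k + 2))).congr fun q => ?_
    exact key q
  have e1 : G z = _ := split_sum _ hs1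
  have e2 : (z⁻¹) ^ (Wt.k + 2) * G (-z⁻¹) = ∑' q : ℕ × ℤ, (((q.2 : ℂ) * z - ((q.1 : ℂ) + 1))⁻¹) ^ (Wt.k + 2) := by
    unfold G
    rw [← tsum_mul_left]
    exact tsum_congr key
  rw [split_sum _ hs3] at e2
  have a1 : ∑' q : ℕ × ℕ, ((((q.1 : ℂ) + 1) * z + (((q.2 : ℤ) + 1 : ℤ) : ℂ))⁻¹) ^ (Wt.k + 2) = Sp z := by
    unfold Sp
    refine tsum_congr fun q => ?_
    push_cast
    rfl
  have a2 : ∑' p : ℕ, ((((p : ℂ) + 1) * z + ((0 : ℤ) : ℂ))⁻¹) ^ (Wt.k + 2) = Z3 * (z⁻¹) ^ (Wt.k + 2) := by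
    unfold Z3
    rw [← tsum_mul_right]
    refine tsum_congr fun p => ?_
    rw [Int.cast_zero, add_zero, mul_inv, mul_pow]
  have b2 : ∑' p : ℕ, ((((0 : ℤ) : ℂ) * z - ((p : ℂ) + 1))⁻¹) ^ (Wt.k + 2) = -Z3 := by
    unfold Z3
    rw [← tsum_neg]
    refine tsum_congr fun p => ?_
    rw [Int.cast_zero, zero_mul, zero_sub, inv_neg, Wt.odd2.neg_pow]
  have b3 : ∑' q : ℕ × ℕ, ((((-((q.2 : ℤ) + 1) : ℤ) : ℂ) * z - ((q.1 : ℂ) + 1))⁻¹) ^ (Wt.k + 2) = -Sp z := by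
    unfold Sp
    rw [← tsum_neg, ← (Equiv.prodComm ℕ ℕ).tsum_eq]
    refine tsum_congr fun q => ?_
    simp only [Equiv.prodComm_apply, Prod.fst_swap, Prod.snd_swap]
    push_cast
    have : (-((q.1 : ℂ) + 1)) * z - ((q.2 : ℂ) + 1) = -(((q.1 : ℂ) + 1) * z + ((q.2 : ℂ) + 1)) := by
      ring
    rw [this, inv_neg, Wt.odd2.neg_pow]
  have b1 : ∑' q : ℕ × ℕ, (((((q.2 : ℤ) + 1 : ℤ) : ℂ) * z - ((q.1 : ℂ) + 1))⁻¹) ^ (Wt.k + 2)
      = ∑' q : ℕ × ℕ, ((((q.1 : ℂ) + 1) * z + (((-((q.2 : ℤ) + 1)) : ℤ) : ℂ))⁻¹) ^ (Wt.k + 2) := by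
    rw [← (Equiv.prodComm ℕ ℕ).tsum_eq]
    refine tsum_congr fun q => ?_
    simp only [Equiv.prodComm_apply, Prod.fst_swap, Prod.snd_swap]
    push_cast
    congr 2
  simp only [a1, a2] at e1
  simp only [b1, b2, b3] at e2
  rw [e1, e2]
  unfold h
  ring

end Pool.Agent.KS6_20.PQ
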