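import Pool.Agent.KS6_20.PQ.Defs

set_option autoImplicit false

namespace Pool.Agent.KS6_20.PQ

open Complex Filter Topology
open Pool.PlanePD (tau th)

variable [Wt]

theorem G_period (z : ℂ) : G (z + 1) = G z := by
  unfold G
  rw [← (Equiv.prodShear (Equiv.refl ℕ) (fun p : ℕ => Equiv.addRight ((p : ℤ) + 1))).tsum_eq
    (fun q : ℕ × ℤ => ((((q.1 : ℂ) + 1) * z + (q.2 : ℂ))⁻¹) ^ (Wt.k + 2))]
  apply tsum_congr
  rintro ⟨p, n⟩
  simp only [Equiv.prodShear_apply, Equiv.refl_apply, Equiv.coe_addRight]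
  congr 2
  push_cast
  ring

end Pool.Agent.KS6_20.PQ
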