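import Pool.Agent.KS6_20.PQ.Defs

set_option autoImplicit false

namespace Pool.Agent.KS6_20.PQ

open Complex Filter Topology
open Pool.PlanePD (tau th)

variable [Wt]

theorem Z3_ne : Z3 ≠ 0 := by
  have hk : 1 < (((Wt.k + 2 : ℕ)) : ℂ).re := by
    rw [Complex.natCast_re]
    exact_mod_cast (by omega : 1 < Wt.k + 2)
  have h : Z3 = riemannZeta (((Wt.k + 2 : ℕ)) : ℂ) := by
    rw [zeta_eq_tsum_one_div_nat_add_one_cpow hk]
    unfold Z3
    apply tsum_congr
    intro n
    rw [Complex.cpow_natCast, inv_pow, one_div]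
  rw [h]
  exact riemannZeta_ne_zero_of_one_lt_re hk

end Pool.Agent.KS6_20.PQ
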