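import Pool.Agent.KS6_20.PQ.Defs
import Pool.Agent.KS6_20.PQ.P_Sp_diff
import Pool.Agent.KS6_20.PQ.P_Z3_ne
import Pool.Agent.KS6_20.PQ.P_Sp_sing

set_option autoImplicit false

namespace Pool.Agent.KS6_20.PQ

open Complex Filter Topology
open Pool.PlanePD (tau th)

variable [Wt]

/-- the polar part -/
noncomputable def hsA (w : ℂ) : ℂ := 2 * Z3 * ((w + 1)⁻¹) ^ (Wt.k + 2)

theorem hsA_iter (k : ℕ) : ∀ w : ℂ, w ≠ -1 →
    iteratedDeriv k hsA w =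
      2 * Z3 * ((-1) ^ k * ((Nat.factorial (k + (Wt.k + 1)) : ℂ) / (Nat.factorial (Wt.k + 1) : ℂ))) *
        ((w + 1)⁻¹) ^ (Wt.k + 2 + k) := by
  induction k with
  | zero =>
    intro w _
    have : (Nat.factorial (Wt.k + 1) : ℂ) ≠ 0 := by exact_mod_cast Nat.factorial_ne_zero _
    rw [zero_add, div_self this, iteratedDeriv_zero]
    simp [hsA]
  | succ k ih =>
    intro w hw
    have hw1 : w + 1 ≠ 0 := fun h => hw (eq_neg_of_add_eq_zero_left h)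
    rw [iteratedDeriv_succ]
    have hev : iteratedDeriv k hsA =ᶠ[𝓝 w] fun w => 2 * Z3 * ((-1) ^ k *
        ((Nat.factorial (k + (Wt.k + 1)) : ℂ) / (Nat.factorial (Wt.k + 1) : ℂ))) *
          ((w + 1)⁻¹) ^ (Wt.k + 2 + k) := by
      filter_upwards [isOpen_ne.mem_nhds hw] with z hz
      exact ih z hz
    rw [hev.deriv_eq]
    have h0 : HasDerivAt (fun w : ℂ => w + 1) 1 w := (hasDerivAt_id w).add_const (1 : ℂ)
    have h1 : HasDerivAt (fun w : ℂ => (w + 1)⁻¹) (-1 / (w + 1) ^ 2) w := h0.inv hw1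
    have h2 : HasDerivAt (fun w : ℂ => 2 * Z3 * ((-1) ^ k *
        ((Nat.factorial (k + (Wt.k + 1)) : ℂ) / (Nat.factorial (Wt.k + 1) : ℂ))) *
          ((w + 1)⁻¹) ^ (Wt.k + 2 + k))
        (2 * Z3 * ((-1) ^ k * ((Nat.factorial (k + (Wt.k + 1)) : ℂ) /
          (Nat.factorial (Wt.k + 1) : ℂ))) *
          (((Wt.k + 2 + k : ℕ) : ℂ) * ((w + 1)⁻¹) ^ (Wt.k + 2 + k - 1) * (-1 / (w + 1) ^ 2))) w :=
      (h1.pow (Wt.k + 2 + k)).const_mul _
    rw [h2.deriv]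
    have hf : ((Nat.factorial (k + 1 + (Wt.k + 1)) : ℕ) : ℂ) =
        (k + (Wt.k + 1) + 1) * (Nat.factorial (k + (Wt.k + 1)) : ℂ) := by
      rw [show k + 1 + (Wt.k + 1) = (k + (Wt.k + 1)) + 1 from by ring, Nat.factorial_succ]
      push_cast
      ring
    have hv : (-1 / (w + 1) ^ 2 : ℂ) = -((w + 1)⁻¹) ^ 2 := by
      rw [inv_pow, neg_div, one_div]
    rw [hf, hv, show Wt.k + 2 + k - 1 = Wt.k + k + 1 by omega,
      show Wt.k + 2 + (k + 1) = (Wt.k + k + 1) + 2 by ring]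
    generalize (w + 1)⁻¹ = v
    push_cast
    ring

theorem hs_sp_diff : DifferentiableOn ℂ h slitPlane := by
  unfold h
  have h0 : DifferentiableOn ℂ (fun z : ℂ => z⁻¹) slitPlane := by
    intro z hz
    exact (differentiableAt_inv (slitPlane_ne_zero hz)).differentiableWithinAt
  exact (Sp_diff.1.const_mul 2).add (((h0.pow (Wt.k + 2)).const_add 1).const_mul Z3)

theorem hs_a_diff : DifferentiableOn ℂ hsA slitPlane := by
  unfold hsA
  have h0 : DifferentiableOn ℂ (fun z : ℂ => (z + 1)⁻¹) slitPlane := by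
    intro z hz
    have hz1 : z + 1 ≠ 0 := by
      intro h
      have hz' : z = -1 := eq_neg_of_add_eq_zero_left h
      rw [hz', mem_slitPlane_iff] at hz
      rcases hz with hz | hz
      · simp at hz; linarith
      · simp at hz
    have h0 : HasDerivAt (fun w : ℂ => w + 1) 1 z := (hasDerivAt_id z).add_const (1 : ℂ)
    exact (h0.inv hz1).differentiableAt.differentiableWithinAt
  exact (h0.pow (Wt.k + 2)).const_mul _

/-- the regular part -/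
noncomputable def hsB (w : ℂ) : ℂ := h w - hsA w

theorem hs_b_diff : DifferentiableOn ℂ hsB slitPlane := hs_sp_diff.sub hs_a_diff

theorem hs_split (k : ℕ) (w : ℂ) (hw : w ∈ slitPlane) :
    iteratedDeriv k h w = iteratedDeriv k hsB w + iteratedDeriv k hsA w := by
  have e : h = hsB + hsA := by
    funext z; simp [hsB]
  have h1 : ContDiffAt ℂ k hsB w :=
    (hs_b_diff.contDiffOn isOpen_slitPlane).contDiffAt (isOpen_slitPlane.mem_nhds hw)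
  have h2 : ContDiffAt ℂ k hsA w :=
    (hs_a_diff.contDiffOn isOpen_slitPlane).contDiffAt (isOpen_slitPlane.mem_nhds hw)
  conv_lhs => rw [e]
  exact iteratedDeriv_add h1 h2

theorem hs_b_bound : ∃ K : ℝ, 0 ≤ K ∧ ∀ (ε : ℝ), 0 < ε → ε ≤ 1 / 2 →
    ∀ w : ℂ, ‖w - (-1 + ε * I)‖ ≤ ε / 2 → w ∈ slitPlane ∧ ‖hsB w‖ ≤ K / ε ^ (Wt.k + 1) := by
  obtain ⟨C, hC⟩ := Sp_sing
  refine ⟨2 * 2 ^ (Wt.k + 1) * |C| + (1 + 4 ^ (Wt.k + 2)) * ‖Z3‖, by positivity, ?_⟩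
  intro ε hε hε2 w hw
  have him : |w.im - ε| ≤ ε / 2 := by
    have := (Complex.abs_im_le_norm (w - (-1 + ε * I))).trans hw
    simpa using this
  have hre : |w.re + 1| ≤ ε / 2 := by
    have := (Complex.abs_re_le_norm (w - (-1 + ε * I))).trans hw
    simpa using this
  have him1 := abs_le.mp him
  have hre1 := abs_le.mp hre
  have hpos : ε / 2 ≤ w.im := by linarith
  have hpos' : 0 < w.im := by linarith
  refine ⟨by rw [mem_slitPlane_iff]; right; exact hpos'.ne', ?_⟩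
  have h1 := hC w hpos' (by linarith) (by linarith)
  have hk1 : (1 : ℝ) ≤ (Wt.k : ℝ) := by exact_mod_cast Wt.one_le
  have h2 : (w.im) ^ (-(Wt.k + 1 / 2) : ℝ) ≤ 2 ^ (Wt.k + 1) / ε ^ (Wt.k + 1) := by
    have a1 : (w.im) ^ (-(Wt.k + 1 / 2) : ℝ) ≤ (ε / 2) ^ (-(Wt.k + 1 / 2) : ℝ) :=
      Real.rpow_le_rpow_of_nonpos (by linarith) hpos (by linarith)
    have a2 : (ε / 2) ^ (-(Wt.k + 1 / 2) : ℝ) ≤ (ε / 2) ^ (-(Wt.k + 1) : ℝ) :=
      Real.rpow_le_rpow_of_exponent_ge (by linarith) (by linarith) (by linarith)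
    have a3 : (ε / 2) ^ (-(Wt.k + 1) : ℝ) = 2 ^ (Wt.k + 1) / ε ^ (Wt.k + 1) := by
      rw [Real.rpow_neg (by linarith)]
      rw [show ((Wt.k : ℝ) + 1) = ((Wt.k + 1 : ℕ) : ℝ) by push_cast; ring, Real.rpow_natCast,
        div_pow, inv_div]
    linarith
  have h3 : ‖Sp w - Z3 * ((w + 1)⁻¹) ^ (Wt.k + 2)‖ ≤ |C| * (2 ^ (Wt.k + 1) / ε ^ (Wt.k + 1)) := by
    refine h1.trans ?_
    have hp : 0 ≤ (w.im) ^ (-(Wt.k + 1 / 2) : ℝ) := Real.rpow_nonneg hpos'.le _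
    calc C * (w.im) ^ (-(Wt.k + 1 / 2) : ℝ) ≤ |C| * (w.im) ^ (-(Wt.k + 1 / 2) : ℝ) :=
          mul_le_mul_of_nonneg_right (le_abs_self C) hp
      _ ≤ |C| * (2 ^ (Wt.k + 1) / ε ^ (Wt.k + 1)) := mul_le_mul_of_nonneg_left h2 (abs_nonneg C)
  have hwn : (1 / 4 : ℝ) ≤ ‖w‖ := by
    have b1 : |w.re| ≤ ‖w‖ := Complex.abs_re_le_norm w
    have b2 : 1 / 4 ≤ |w.re| := by
      rw [abs_of_nonpos (by linarith)]
      linarith
    linarith
  have h4 : ‖(1 : ℂ) + (w⁻¹) ^ (Wt.k + 2)‖ ≤ 1 + 4 ^ (Wt.k + 2) := by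
    refine (norm_add_le _ _).trans ?_
    rw [norm_one, norm_pow, norm_inv]
    have : ‖w‖⁻¹ ≤ 4 := by
      rw [inv_le_comm₀ (by linarith) (by norm_num)]
      linarith
    have h0 : 0 ≤ ‖w‖⁻¹ := by positivity
    have := pow_le_pow_left₀ h0 this (Wt.k + 2)
    linarith
  have e : hsB w = 2 * (Sp w - Z3 * ((w + 1)⁻¹) ^ (Wt.k + 2)) + Z3 * (1 + (w⁻¹) ^ (Wt.k + 2)) := by
    simp only [hsB, h, hsA]; ring
  rw [e]
  refine (norm_add_le _ _).trans ?_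
  rw [norm_mul, norm_mul]
  have h5 : ‖(2 : ℂ)‖ = 2 := by simp
  rw [h5]
  have h6 : ‖Z3‖ * ‖(1 : ℂ) + (w⁻¹) ^ (Wt.k + 2)‖ ≤ ‖Z3‖ * (1 + 4 ^ (Wt.k + 2)) :=
    mul_le_mul_of_nonneg_left h4 (norm_nonneg _)
  have h7 : ((1 + 4 ^ (Wt.k + 2)) * ‖Z3‖) ≤ (1 + 4 ^ (Wt.k + 2)) * ‖Z3‖ / ε ^ (Wt.k + 1) := by
    rw [le_div_iff₀ (by positivity)]
    have : ε ^ (Wt.k + 1) ≤ 1 := pow_le_one₀ hε.le (by linarith)
    have h0 : 0 ≤ (1 + 4 ^ (Wt.k + 2)) * ‖Z3‖ := by positivity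
    exact mul_le_of_le_one_right h0 this
  have h8 : (2 * 2 ^ (Wt.k + 1) * |C| + (1 + 4 ^ (Wt.k + 2)) * ‖Z3‖) / ε ^ (Wt.k + 1) =
      2 * (|C| * (2 ^ (Wt.k + 1) / ε ^ (Wt.k + 1))) +
        (1 + 4 ^ (Wt.k + 2)) * ‖Z3‖ / ε ^ (Wt.k + 1) := by
    ring
  rw [h8]
  linarith

/-- all derivatives of `h` at `-1 + iε` have a pole type behaviour. -/
theorem h_sing (k : ℕ) : ∃ κ : ℂ, κ ≠ 0 ∧
    Tendsto (fun ε : ℝ => (ε : ℂ) ^ (Wt.k + 2 + k) * hjet (-1 + ε * I) k) (𝓝[>] 0) (𝓝 κ) := by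
  obtain ⟨K, hK0, hK⟩ := hs_b_bound
  have hmem : ∀ ε : ℝ, 0 < ε → (-1 + ε * I : ℂ) ∈ slitPlane := by
    intro ε hε
    rw [mem_slitPlane_iff]; right; simp; exact hε.ne'
  refine ⟨2 * Z3 * ((-1) ^ k * ((Nat.factorial (k + (Wt.k + 1)) : ℂ) / (Nat.factorial (Wt.k + 1) : ℂ))) * (I⁻¹) ^ (Wt.k + 2 + k), ?_, ?_⟩
  · have : (Nat.factorial (k + (Wt.k + 1)) : ℂ) ≠ 0 := by exact_mod_cast Nat.factorial_ne_zero _
    have this2 : (Nat.factorial (Wt.k + 1) : ℂ) ≠ 0 := by exact_mod_cast Nat.factorial_ne_zero _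
    refine mul_ne_zero (mul_ne_zero (mul_ne_zero two_ne_zero Z3_ne) (mul_ne_zero ?_ ?_)) ?_
    · exact pow_ne_zero _ (by norm_num)
    · exact div_ne_zero this this2
    · exact pow_ne_zero _ (inv_ne_zero I_ne_zero)
  have hb : Tendsto (fun ε : ℝ => (ε : ℂ) ^ (Wt.k + 2 + k) * iteratedDeriv k hsB (-1 + ε * I))
      (𝓝[>] 0) (𝓝 0) := by
    have hlim : Tendsto (fun ε : ℝ => ε * (Nat.factorial k * 2 ^ k * K)) (𝓝[>] 0) (𝓝 0) := by
      have : Tendsto (fun ε : ℝ => ε * (Nat.factorial k * 2 ^ k * K)) (𝓝 0)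
          (𝓝 (0 * (Nat.factorial k * 2 ^ k * K))) := tendsto_id.mul_const _
      rw [zero_mul] at this
      exact this.mono_left nhdsWithin_le_nhds
    refine squeeze_zero_norm' ?_ hlim
    have hI : Set.Ioo (0 : ℝ) (1 / 2) ∈ 𝓝[>] (0 : ℝ) := Ioo_mem_nhdsGT (by norm_num)
    filter_upwards [hI] with ε hε
    have hball : ∀ w ∈ Metric.closedBall (-1 + ε * I : ℂ) (ε / 2),
        w ∈ slitPlane ∧ ‖hsB w‖ ≤ K / ε ^ (Wt.k + 1) := by
      intro w hw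
      rw [Metric.mem_closedBall, dist_eq_norm] at hw
      exact hK ε hε.1 hε.2.le w hw
    have hdiff : DiffContOnCl ℂ hsB (Metric.ball (-1 + ε * I : ℂ) (ε / 2)) := by
      apply DifferentiableOn.diffContOnCl
      refine hs_b_diff.mono fun w hw => ?_
      exact (hball w (Metric.closure_ball_subset_closedBall hw)).1
    have hc := Complex.norm_iteratedDeriv_le_of_forall_mem_sphere_norm_le k
      (show 0 < ε / 2 by linarith [hε.1]) hdiff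
      (fun w hw => (hball w (Metric.sphere_subset_closedBall hw)).2)
    rw [norm_mul, norm_pow, Complex.norm_real, Real.norm_of_nonneg hε.1.le]
    calc ε ^ (Wt.k + 2 + k) * ‖iteratedDeriv k hsB (-1 + ε * I)‖
        ≤ ε ^ (Wt.k + 2 + k) * (Nat.factorial k * (K / ε ^ (Wt.k + 1)) / (ε / 2) ^ k) :=
          mul_le_mul_of_nonneg_left hc (by have := hε.1; positivity)
      _ = ε * (Nat.factorial k * 2 ^ k * K) := by
          have h0 : ε ≠ 0 := hε.1.ne'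
          rw [div_pow]
          field_simp
          ring
  have ha : Tendsto (fun ε : ℝ => (ε : ℂ) ^ (Wt.k + 2 + k) * iteratedDeriv k hsA (-1 + ε * I))
      (𝓝[>] 0) (𝓝 (2 * Z3 * ((-1) ^ k * ((Nat.factorial (k + (Wt.k + 1)) : ℂ) / (Nat.factorial (Wt.k + 1) : ℂ))) *
        (I⁻¹) ^ (Wt.k + 2 + k))) := by
    refine tendsto_const_nhds.congr' ?_
    filter_upwards [self_mem_nhdsWithin] with ε hε
    have hε0 : (ε : ℂ) ≠ 0 := by exact_mod_cast (ne_of_gt hε)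
    rw [hsA_iter]
    · have : (-1 + (ε : ℂ) * I + 1)⁻¹ = (ε : ℂ)⁻¹ * I⁻¹ := by
        rw [← mul_inv]; congr 1; ring
      rw [this, mul_pow]
      have h1 : (ε : ℂ) ^ (Wt.k + 2 + k) * ((ε : ℂ)⁻¹) ^ (Wt.k + 2 + k) = 1 := by
        rw [← mul_pow, mul_inv_cancel₀ hε0, one_pow]
      calc 2 * Z3 * ((-1) ^ k * ((Nat.factorial (k + (Wt.k + 1)) : ℂ) / (Nat.factorial (Wt.k + 1) : ℂ))) * (I⁻¹) ^ (Wt.k + 2 + k)
          = ((ε : ℂ) ^ (Wt.k + 2 + k) * ((ε : ℂ)⁻¹) ^ (Wt.k + 2 + k)) *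
            (2 * Z3 * ((-1) ^ k * ((Nat.factorial (k + (Wt.k + 1)) : ℂ) / (Nat.factorial (Wt.k + 1) : ℂ))) * (I⁻¹) ^ (Wt.k + 2 + k)) := by
              rw [h1, one_mul]
        _ = _ := by ring
    · intro h
      have := congrArg Complex.im h
      simp at this
      exact (ne_of_gt hε) this
  have hsum := hb.add ha
  rw [zero_add] at hsum
  refine hsum.congr' ?_
  filter_upwards [self_mem_nhdsWithin] with ε hε
  rw [hjet, hs_split k _ (hmem ε hε)]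
  ring

end Pool.Agent.KS6_20.PQ
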