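import Pool.Agent.KS6_20.PQ.P_alg_main
import Pool.Agent.KS6_20.PQ.P_T_closed
import Pool.Agent.KS6_20.PQ.P_h_sing
set_option autoImplicit false

namespace Pool.Agent.KS6_20.PQ

open Complex Filter Topology
open Pool.PlanePD (tau th)

variable [Wt]

theorem hyper (P : MvPolynomial ℕ ℂ)
    (hP : ∀ z : ℂ, 0 < z.im → MvPolynomial.eval (jet z) P = 0) : P = 0 := by
  refine alg_main {y | ∃ z : ℂ, 0 < z.im ∧ y = jet z} ⟨jet I, I, by simp, rfl⟩
    (fun ε k => hjet (-1 + ε * I) k) (fun k => h_sing k) ?_ P ?_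
  · rintro R hR ε hε hε1 y ⟨z, hz, rfl⟩
    refine T_closed R (fun z' hz' => hR _ ⟨z', hz', rfl⟩) _ ?_ z hz
    rw [mem_slitPlane_iff]
    right
    simp [hε.ne']
  · rintro y ⟨z, hz, rfl⟩
    exact hP z hz

end Pool.Agent.KS6_20.PQ
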