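import Pool.Agent.KS6_20.PQ.Defs
import Pool.Agent.KS6_20.PQ.P_G_q
import Pool.Agent.KS6_20.PQ.P_hyper
import Pool.Agent.KS6_20.PQ.P_jets_q
import Pool.Agent.KS6_20.PQ.P_eval_ps

set_option autoImplicit false

namespace Pool.Agent.KS6_20.PQ

open Complex Filter Topology
open Pool.PlanePD (tau th)

variable [Wt]

theorem F_hyper (R : MvPolynomial ℕ ℚ) (hR : MvPolynomial.aeval (fun k => th^[k] F) R = 0) :
    R = 0 := by
  obtain ⟨c, hc0, hc⟩ := G_q
  have hb : ∀ k : ℕ, c * (2 * Real.pi * I) ^ k ≠ 0 := by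
    intro k
    apply mul_ne_zero hc0
    apply pow_ne_zero
    have : (Real.pi : ℂ) ≠ 0 := by exact_mod_cast Real.pi_ne_zero
    simp [this]
  obtain ⟨b, hbdef⟩ : ∃ b : ℕ → ℂ, b = fun k => c * (2 * Real.pi * I) ^ k := ⟨_, rfl⟩
  have hb' : ∀ k, b k ≠ 0 := by intro k; rw [hbdef]; exact hb k
  obtain ⟨Q, hQ⟩ : ∃ Q : MvPolynomial ℕ ℂ, Q = MvPolynomial.map (algebraMap ℚ ℂ) R := ⟨_, rfl⟩
  obtain ⟨P, hP⟩ : ∃ P : MvPolynomial ℕ ℂ, P = MvPolynomial.bind₁ (fun k : ℕ =>
    (MvPolynomial.C (b k)⁻¹ * MvPolynomial.X k : MvPolynomial ℕ ℂ)) Q := ⟨_, rfl⟩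
  have hP0 : P = 0 := by
    apply hyper
    intro z hz
    have h1 : MvPolynomial.eval (jet z) P = MvPolynomial.aeval (jet z) P := by
      rw [MvPolynomial.aeval_def, MvPolynomial.eval₂_eq_eval_map]
      simp
    rw [h1, hP, MvPolynomial.aeval_bind₁, hQ, MvPolynomial.aeval_map_algebraMap]
    have ht : ‖exp (2 * Real.pi * I * z)‖ < 1 := by
      rw [Complex.norm_exp]
      have : (2 * Real.pi * I * z).re = - (2 * Real.pi * z.im) := by
        simp
      rw [this, Real.exp_lt_one_iff]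
      have := Real.pi_pos
      have : 0 < 2 * Real.pi * z.im := by positivity
      linarith
    have h2 := eval_ps R hR _ ht
    rw [← h2]
    congr 1
    congr 1
    funext k
    rw [map_mul, MvPolynomial.aeval_X, MvPolynomial.aeval_C, jets_q c hc k z hz, hbdef]
    have := hb k
    simp only [Algebra.algebraMap_self, RingHom.id_apply]
    rw [← mul_assoc, inv_mul_cancel₀ this, one_mul]
  have hQ0 : Q = 0 := by
    have h3 : MvPolynomial.bind₁ (fun k : ℕ =>
        (MvPolynomial.C (b k) * MvPolynomial.X k : MvPolynomial ℕ ℂ)) P = Q := by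
      rw [hP, MvPolynomial.bind₁_bind₁]
      have h4 : (fun i : ℕ => MvPolynomial.bind₁ (fun k : ℕ =>
          (MvPolynomial.C (b k) * MvPolynomial.X k : MvPolynomial ℕ ℂ))
          (MvPolynomial.C (b i)⁻¹ * MvPolynomial.X i : MvPolynomial ℕ ℂ)) = MvPolynomial.X := by
        funext i
        rw [map_mul, MvPolynomial.bind₁_X_right, MvPolynomial.bind₁_C_right, ← mul_assoc,
          ← MvPolynomial.C_mul, inv_mul_cancel₀ (hb' i), MvPolynomial.C_1, one_mul]
      rw [h4]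
      simp
    rw [← h3, hP0, map_zero]
  have h5 : Function.Injective (MvPolynomial.map (σ := ℕ) (algebraMap ℚ ℂ)) :=
    MvPolynomial.map_injective _ (algebraMap ℚ ℂ).injective
  apply h5
  rw [← hQ, hQ0, map_zero]

end Pool.Agent.KS6_20.PQ
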