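import Pool.Agent.KS6_20.PQ.Defs

set_option autoImplicit false

namespace Pool.Agent.KS6_20.PQ

open Complex Filter Topology
open Pool.PlanePD (tau th)

variable [Wt]

theorem Lw_cont_aux (P : MvPolynomial ℕ ℂ) :
    ∃ Q : MvPolynomial ℕ (Polynomial ℂ), ∀ w : ℂ,
      Lw w P = MvPolynomial.map (Polynomial.evalRingHom w) Q := by
  induction P using MvPolynomial.induction_on with
  | C a =>
    refine ⟨MvPolynomial.C (Polynomial.C a), fun w => ?_⟩
    simp [Lw]
  | add p q hp hq =>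
    obtain ⟨Q1, h1⟩ := hp
    obtain ⟨Q2, h2⟩ := hq
    refine ⟨Q1 + Q2, fun w => ?_⟩
    rw [map_add, map_add, h1 w, h2 w]
  | mul_X p k hp =>
    obtain ⟨Q1, h1⟩ := hp
    refine ⟨Q1 * ∑ i ∈ Finset.range (k + 1),
      MvPolynomial.C (ecoef k i) * (MvPolynomial.X i : MvPolynomial ℕ (Polynomial ℂ)), fun w => ?_⟩
    rw [map_mul, map_mul, h1 w]
    congr 1
    simp [Lw, map_sum]

theorem Lw_cont (P : MvPolynomial ℕ ℂ) (L : MvPolynomial ℕ ℂ →ₗ[ℂ] ℂ) :
    Continuous (fun w : ℂ => L (Lw w P)) := by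
  obtain ⟨Q, hQ⟩ := Lw_cont_aux P
  have h : (fun w : ℂ => L (Lw w P)) = fun w : ℂ =>
      ∑ m ∈ Q.support, (MvPolynomial.coeff m Q).eval w * L (MvPolynomial.monomial m 1) := by
    funext w
    rw [hQ w]
    conv_lhs => rw [MvPolynomial.as_sum Q]
    rw [map_sum, map_sum]
    apply Finset.sum_congr rfl
    intro m _
    rw [MvPolynomial.map_monomial]
    have : (MvPolynomial.monomial m) (Polynomial.evalRingHom w (MvPolynomial.coeff m Q)) =
        (Polynomial.eval w (MvPolynomial.coeff m Q)) • (MvPolynomial.monomial m (1 : ℂ)) := by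
      rw [MvPolynomial.smul_monomial]
      simp
    rw [this, map_smul, smul_eq_mul]
  rw [h]
  apply continuous_finsetSum
  intro m _
  exact ((MvPolynomial.coeff m Q).continuous).mul continuous_const

end Pool.Agent.KS6_20.PQ
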