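import Pool.Agent.KS6_20.PQ.Defs
import Pool.Agent.KS6_20.PQ.A0
import Pool.Agent.KS6_20.PQ.P_Lw_deg
import Pool.Graph.R_seed8.Helper777.PP.P_tau_deg
import Pool.Graph.R_seed8.Helper777.PP.P_tau_coeff
import Pool.Agent.KS6_20.PQ.P_Lw_cont
import Pool.Agent.KS6_20.PQ.P_Lw_top
import Pool.Graph.R_seed8.Helper777.PP.P_exists_functional

set_option autoImplicit false

namespace Pool.Agent.KS6_20.PQ

open Complex Filter Topology
open Pool.PlanePD (tau th tau_deg tau_coeff exists_functional)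

variable [Wt]

/-- the algebraic heart: a set of jets closed under the affine maps `aff w (c ε)` with `c`
blowing up cannot satisfy any polynomial relation. -/
theorem alg_main (V : Set (ℕ → ℂ)) (hV : V.Nonempty) (c : ℝ → ℕ → ℂ)
    (hc : ∀ k, ∃ κ : ℂ, κ ≠ 0 ∧
      Tendsto (fun ε : ℝ => (ε : ℂ) ^ (Wt.k + 2 + k) * c ε k) (𝓝[>] 0) (𝓝 κ))
    (hT : ∀ P : MvPolynomial ℕ ℂ, (∀ y ∈ V, MvPolynomial.eval y P = 0) →
      ∀ ε : ℝ, 0 < ε → ε < 1 → ∀ y ∈ V,
        MvPolynomial.eval (aff (-1 + ε * I) (c ε) y) P = 0) :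
    ∀ P : MvPolynomial ℕ ℂ, (∀ y ∈ V, MvPolynomial.eval y P = 0) → P = 0 := by
  classical
  by_contra hcon
  push Not at hcon
  obtain ⟨P0, hP0V, hP0⟩ := hcon
  have hex : ∃ d, ∃ P : MvPolynomial ℕ ℂ, (∀ y ∈ V, MvPolynomial.eval y P = 0) ∧ P ≠ 0 ∧
      P.totalDegree = d := ⟨_, P0, hP0V, hP0, rfl⟩
  obtain ⟨P, hPV, hPne, hPd⟩ := Nat.find_spec hex
  have hmin : ∀ Q : MvPolynomial ℕ ℂ, (∀ y ∈ V, MvPolynomial.eval y Q = 0) →
      Q.totalDegree < Nat.find hex → Q = 0 := by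
    intro Q hQ hlt
    by_contra hne
    exact Nat.find_min hex hlt ⟨Q, hQ, hne, rfl⟩
  obtain ⟨y0, hy0⟩ := hV
  have hpos : Nat.find hex ≠ 0 := by
    intro h0
    rw [h0] at hPd
    have h1 := MvPolynomial.totalDegree_eq_zero_iff_eq_C.1 hPd
    have h2 := hPV y0 hy0
    rw [h1, MvPolynomial.eval_C] at h2
    apply hPne
    rw [h1, h2, MvPolynomial.C_0]
  obtain ⟨N, hN⟩ := Nat.exists_eq_succ_of_ne_zero hpos
  rw [hN] at hPd hmin
  let W : Submodule ℂ (MvPolynomial ℕ ℂ) :=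
    { carrier := {Q | (∀ y ∈ V, MvPolynomial.eval y Q = 0) ∧ Q.totalDegree ≤ N + 1}
      add_mem' := by
        rintro Q R ⟨h1, h2⟩ ⟨h3, h4⟩
        refine ⟨fun y hy => by rw [map_add, h1 y hy, h3 y hy, add_zero], ?_⟩
        exact (MvPolynomial.totalDegree_add Q R).trans (max_le h2 h4)
      zero_mem' := ⟨fun y _ => map_zero _, by simp⟩
      smul_mem' := by
        rintro a Q ⟨h1, h2⟩
        refine ⟨fun y hy => by rw [MvPolynomial.smul_eval, h1 y hy, mul_zero], ?_⟩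
        exact (MvPolynomial.totalDegree_smul_le a Q).trans h2 }
  have hW : ∀ Q ∈ W, Q.totalDegree ≤ N → Q = 0 := fun Q hQ hd => hmin Q hQ.1 (by omega)
  obtain ⟨K, b, hbN, hK, htop⟩ := Lw_top P N hPd
  obtain ⟨L, hL1, hL2⟩ := exists_functional W N hW b
  have hPd' : P.totalDegree ≤ N + 1 := le_of_eq hPd
  -- the identity
  have key : ∀ ε : ℝ, 0 < ε → ε < 1 → L (Lw (-1 + ε * I) P) =
      ∑ k ∈ Finset.range (K + 1), c ε k *
        MvPolynomial.coeff b (MvPolynomial.pderiv k (Lw (-1 + ε * I) P)) := by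
    intro ε h0 h1
    set Q := Lw (-1 + ε * I) P with hQ
    have hQd : Q.totalDegree ≤ N + 1 := (Lw_deg _ P).trans hPd'
    have hd := tau_deg (c ε) N Q hQd
    have hW1 : tau (c ε) Q ∈ W := by
      refine ⟨fun y hy => ?_, ?_⟩
      · rw [hQ, tau_Lw_eval]
        exact hT P hPV ε h0 h1 y hy
      · have e : tau (c ε) Q = (tau (c ε) Q - Q) + Q := by ring
        rw [e]
        exact (MvPolynomial.totalDegree_add _ _).trans (max_le (hd.trans (Nat.le_succ _)) hQd)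
    have e1 := hL1 _ hW1
    have e2 := hL2 _ hd
    rw [map_sub, e1, MvPolynomial.coeff_sub,
      tau_coeff (c ε) Q b (by rw [hbN]; exact hQd) (Q.vars ∪ Finset.range (K + 1))
        Finset.subset_union_left] at e2
    have e3 : ∑ k ∈ Q.vars ∪ Finset.range (K + 1),
        c ε k * MvPolynomial.coeff b (MvPolynomial.pderiv k Q) =
        ∑ k ∈ Finset.range (K + 1), c ε k *
          MvPolynomial.coeff b (MvPolynomial.pderiv k Q) := by
      symm
      refine Finset.sum_subset Finset.subset_union_right fun k _ hk => ?_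
      rw [hQ, htop _ k (by rw [Finset.mem_range] at hk; omega), mul_zero]
    rw [← e3]
    linear_combination -e2
  -- limits
  choose κ hκ0 hκ using hc
  have hw : Tendsto (fun ε : ℝ => (-1 + (ε : ℂ) * I : ℂ)) (𝓝[>] 0) (𝓝 (-1)) := by
    have : Tendsto (fun ε : ℝ => (-1 + (ε : ℂ) * I : ℂ)) (𝓝 0) (𝓝 (-1 + ((0 : ℝ) : ℂ) * I)) := by
      apply Continuous.tendsto
      fun_prop
    have h2 := this.mono_left (nhdsWithin_le_nhds (s := Set.Ioi (0 : ℝ)))
    simpa using h2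
  have hε : ∀ m : ℕ, Tendsto (fun ε : ℝ => ((ε : ℂ)) ^ m) (𝓝[>] 0) (𝓝 (0 ^ m)) := by
    intro m
    have : Tendsto (fun ε : ℝ => ((ε : ℂ)) ^ m) (𝓝 0) (𝓝 (((0 : ℝ) : ℂ) ^ m)) := by
      apply Continuous.tendsto (f := fun ε : ℝ => ((ε : ℂ)) ^ m)
      fun_prop
    have h2 := this.mono_left (nhdsWithin_le_nhds (s := Set.Ioi (0 : ℝ)))
    simpa using h2
  have hLlim : Tendsto (fun ε : ℝ => (ε : ℂ) ^ (Wt.k + 2 + K) * L (Lw (-1 + ε * I) P)) (𝓝[>] 0)
      (𝓝 (0 ^ (Wt.k + 2 + K) * L (Lw (-1) P))) :=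
    (hε (Wt.k + 2 + K)).mul (((Lw_cont P L).tendsto (-1)).comp hw)
  have hD : ∀ k, Tendsto (fun ε : ℝ => MvPolynomial.coeff b
      (MvPolynomial.pderiv k (Lw (-1 + ε * I) P))) (𝓝[>] 0)
      (𝓝 (MvPolynomial.coeff b (MvPolynomial.pderiv k (Lw (-1) P)))) := by
    intro k
    exact ((Lw_cont P ((MvPolynomial.lcoeff ℂ b).comp
      (MvPolynomial.pderiv k : Derivation ℂ _ _).toLinearMap)).tendsto (-1)).comp hw
  have hRlim : Tendsto (fun ε : ℝ => ∑ k ∈ Finset.range (K + 1), (ε : ℂ) ^ (K - k) *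
      ((ε : ℂ) ^ (Wt.k + 2 + k) * c ε k) * MvPolynomial.coeff b
        (MvPolynomial.pderiv k (Lw (-1 + ε * I) P))) (𝓝[>] 0)
      (𝓝 (∑ k ∈ Finset.range (K + 1), 0 ^ (K - k) * κ k *
        MvPolynomial.coeff b (MvPolynomial.pderiv k (Lw (-1) P)))) :=
    tendsto_finsetSum _ fun k _ => ((hε (K - k)).mul (hκ k)).mul (hD k)
  have heq : (fun ε : ℝ => (ε : ℂ) ^ (Wt.k + 2 + K) * L (Lw (-1 + ε * I) P)) =ᶠ[𝓝[>] 0]
      fun ε : ℝ => ∑ k ∈ Finset.range (K + 1), (ε : ℂ) ^ (K - k) *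
      ((ε : ℂ) ^ (Wt.k + 2 + k) * c ε k) * MvPolynomial.coeff b
        (MvPolynomial.pderiv k (Lw (-1 + ε * I) P)) := by
    have h1 : ∀ᶠ ε : ℝ in 𝓝[>] 0, 0 < ε ∧ ε < 1 :=
      Ioo_mem_nhdsGT (by norm_num)
    filter_upwards [h1] with ε hε1
    rw [key ε hε1.1 hε1.2, Finset.mul_sum]
    refine Finset.sum_congr rfl fun k hk => ?_
    have hk' : k ≤ K := by rw [Finset.mem_range] at hk; omega
    have e : (ε : ℂ) ^ (Wt.k + 2 + K) = (ε : ℂ) ^ (K - k) * (ε : ℂ) ^ (Wt.k + 2 + k) := by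
      rw [← pow_add]
      congr 1
      omega
    rw [e]
    ring
  have huniq := tendsto_nhds_unique (hLlim.congr' heq) hRlim
  have hsum : ∑ k ∈ Finset.range (K + 1), (0 : ℂ) ^ (K - k) * κ k *
      MvPolynomial.coeff b (MvPolynomial.pderiv k (Lw (-1) P)) =
      κ K * MvPolynomial.coeff b (MvPolynomial.pderiv K (Lw (-1) P)) := by
    rw [Finset.sum_eq_single K]
    · simp
    · intro k hk hkK
      have : K - k ≠ 0 := by rw [Finset.mem_range] at hk; omega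
      rw [zero_pow this, zero_mul, zero_mul]
    · intro h
      exact absurd (Finset.mem_range.2 (Nat.lt_succ_self K)) h
  rw [hsum, zero_pow (by omega), zero_mul] at huniq
  exact mul_ne_zero (hκ0 K) hK huniq.symm

end Pool.Agent.KS6_20.PQ
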