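import Pool.Agent.KS6_20.PQ.P_F_hyper
import Pool.Graph.R_seed8.Helper777.PP.P_log_deriv
import Pool.Graph.R_seed8.Helper777.PP.P_elim
import Pool.Graph.R_seed8.Helper777.PP.P_macmahon
import Pool.Graph.R_seed8.Helper777.PP.Final
set_option autoImplicit false

/-!
The products `∏ (1 - X^m)^{-m^k}`: logarithmic derivative, and the conclusion that they are not
D-algebraic.
-/

namespace Pool.Agent.KS6_20.PQ

open PowerSeries
open Pool.PlanePD (tau th ldT ld_T ld_th_mul ld_th_one_sub ld_coeff_th)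

/-- `∏_{1 ≤ m ≤ n} (1 - X^m)^{-m^k}` -/
noncomputable def finiteProduct (k n : ℕ) : PowerSeries ℚ :=
  ∏ m ∈ Finset.Icc 1 n, ((1 - (X : PowerSeries ℚ) ^ m)⁻¹) ^ (m ^ k)

/-- `∏_{m ≥ 1} (1 - X^m)^{-m^k}`: the `n`-th coefficient is that of the finite product over
`m ≤ n`. -/
noncomputable def infiniteProduct (k : ℕ) : PowerSeries ℚ :=
  PowerSeries.mk fun n => coeff n (finiteProduct k n)

theorem inv_mul {m : ℕ} (hm : 1 ≤ m) :
    (1 - (X : PowerSeries ℚ) ^ m)⁻¹ * (1 - X ^ m) = 1 := by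
  apply PowerSeries.inv_mul_cancel
  rw [map_sub, map_one, map_pow, PowerSeries.constantCoeff_X, zero_pow (by omega), sub_zero]
  exact one_ne_zero

theorem th_inv {m : ℕ} (hm : 1 ≤ m) :
    th ((1 - (X : PowerSeries ℚ) ^ m)⁻¹) = (1 - X ^ m)⁻¹ * ldT m := by
  have h1 := inv_mul hm
  have h2 : th ((1 - (X : PowerSeries ℚ) ^ m)⁻¹ * (1 - X ^ m)) = 0 := by
    rw [h1]; simp [th]
  rw [ld_th_mul, ld_th_one_sub hm] at h2
  linear_combination (1 - (X : PowerSeries ℚ) ^ m)⁻¹ * h2 +
    ((1 - (X : PowerSeries ℚ) ^ m)⁻¹ * ldT m - th ((1 - (X : PowerSeries ℚ) ^ m)⁻¹)) * h1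

theorem th_pow {f T : PowerSeries ℚ} (h : th f = f * T) (e : ℕ) :
    th (f ^ e) = f ^ e * (C (e : ℚ) * T) := by
  induction e with
  | zero => simp [th]
  | succ e ih =>
    rw [pow_succ, ld_th_mul, ih, h]
    push_cast
    rw [map_add, map_one]
    ring

theorem th_prod {α : Type*} (s : Finset α) (f T : α → PowerSeries ℚ)
    (h : ∀ a ∈ s, th (f a) = f a * T a) :
    th (∏ a ∈ s, f a) = (∏ a ∈ s, f a) * ∑ a ∈ s, T a := by
  classical
  induction s using Finset.induction_on with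
  | empty => simp [th]
  | insert a s ha ih =>
    rw [Finset.prod_insert ha, Finset.sum_insert ha, ld_th_mul, h a (Finset.mem_insert_self _ _),
      ih (fun b hb => h b (Finset.mem_insert_of_mem hb))]
    ring

theorem th_finite (k n : ℕ) : th (finiteProduct k n) =
    finiteProduct k n * ∑ m ∈ Finset.Icc 1 n, C ((m ^ k : ℕ) : ℚ) * ldT m := by
  unfold finiteProduct
  exact th_prod _ _ _ fun m hm => th_pow (th_inv (Finset.mem_Icc.1 hm).1) _

theorem coeff_sum [Wt] (n j : ℕ) (hj : j ≤ n) :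
    coeff j (∑ m ∈ Finset.Icc 1 n, C ((m ^ Wt.k : ℕ) : ℚ) * ldT m) = (sg2 j : ℚ) := by
  rw [map_sum]
  unfold ldT
  simp only [PowerSeries.coeff_C_mul, PowerSeries.coeff_mk]
  rcases Nat.eq_zero_or_pos j with rfl | h0
  · simp [sg2]
  have e : j.divisors = (Finset.Icc 1 n).filter (fun m => m ∣ j) := by
    ext m
    rw [Nat.mem_divisors, Finset.mem_filter, Finset.mem_Icc]
    constructor
    · rintro ⟨h1, h2⟩
      exact ⟨⟨Nat.pos_of_dvd_of_pos h1 h0, (Nat.le_of_dvd h0 h1).trans hj⟩, h1⟩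
    · rintro ⟨-, h1⟩
      exact ⟨h1, by omega⟩
  unfold sg2
  rw [e, Finset.sum_filter]
  push_cast
  refine Finset.sum_congr rfl fun m _ => ?_
  by_cases hm : m ∣ j
  · rw [if_pos ⟨h0, hm⟩, if_pos hm]
    ring
  · rw [if_neg (fun h => hm h.2), if_neg hm, mul_zero]

theorem coeff_finite_succ (k n j : ℕ) (hj : j ≤ n) :
    coeff j (finiteProduct k (n + 1)) = coeff j (finiteProduct k n) := by
  unfold finiteProduct
  rw [Finset.prod_Icc_succ_top (by omega)]
  set f : PowerSeries ℚ := (1 - (X : PowerSeries ℚ) ^ (n + 1))⁻¹ with hf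
  have h1 : f * (1 - X ^ (n + 1)) = 1 := inv_mul (by omega)
  have h2 : (X : PowerSeries ℚ) ^ (n + 1) ∣ f ^ ((n + 1) ^ k) - 1 := by
    have h3 : f - 1 = X ^ (n + 1) * f := by linear_combination h1
    have h4 := sub_dvd_pow_sub_pow f 1 ((n + 1) ^ k)
    rw [one_pow] at h4
    exact (Dvd.intro _ h3.symm).trans h4
  have h5 : coeff j ((∏ m ∈ Finset.Icc 1 n, ((1 - (X : PowerSeries ℚ) ^ m)⁻¹) ^ (m ^ k)) *
      (f ^ ((n + 1) ^ k) - 1)) = 0 :=
    (PowerSeries.X_pow_dvd_iff.1 (h2.mul_left _)) j (by omega)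
  rw [mul_sub, mul_one, map_sub] at h5
  linarith

theorem coeff_finite (k n N : ℕ) (h : n ≤ N) :
    coeff n (finiteProduct k N) = coeff n (infiniteProduct k) := by
  induction N, h using Nat.le_induction with
  | base => simp [infiniteProduct]
  | succ N hN ih => rw [coeff_finite_succ k N n hN, ih]

theorem th_infinite [Wt] : th (infiniteProduct Wt.k) = infiniteProduct Wt.k * F := by
  ext n
  have h1 := congrArg (coeff n) (th_finite Wt.k n)
  rw [ld_coeff_th, coeff_finite _ _ _ le_rfl, PowerSeries.coeff_mul] at h1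
  rw [ld_coeff_th, h1, PowerSeries.coeff_mul]
  refine Finset.sum_congr rfl fun p hp => ?_
  have hp' := Finset.HasAntidiagonal.mem_antidiagonal.1 hp
  rw [coeff_finite _ _ _ (by omega), coeff_sum n p.2 (by omega)]
  unfold F
  rw [PowerSeries.coeff_mk]

theorem infinite_ne (k : ℕ) : infiniteProduct k ≠ 0 := by
  intro h
  have := congrArg (coeff 0) h
  simp [infiniteProduct, finiteProduct] at this

/-- uniqueness of the solution of `θ f = f * H` with a given constant coefficient. -/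
theorem unique {f g H : PowerSeries ℚ} (hH : coeff 0 H = 0) (hf : th f = f * H)
    (hg : th g = g * H) (h0 : coeff 0 f = coeff 0 g) : f = g := by
  ext n
  induction n using Nat.strong_induction_on with
  | _ n ih =>
    rcases Nat.eq_zero_or_pos n with rfl | hn
    · exact h0
    have e1 := congrArg (coeff n) hf
    have e2 := congrArg (coeff n) hg
    rw [ld_coeff_th, PowerSeries.coeff_mul] at e1 e2
    have e3 : ∑ p ∈ Finset.HasAntidiagonal.antidiagonal n, coeff p.1 f * coeff p.2 H =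
        ∑ p ∈ Finset.HasAntidiagonal.antidiagonal n, coeff p.1 g * coeff p.2 H := by
      refine Finset.sum_congr rfl fun p hp => ?_
      have hp' := Finset.HasAntidiagonal.mem_antidiagonal.1 hp
      rcases Nat.eq_zero_or_pos p.2 with h2 | h2
      · rw [h2, hH, mul_zero, mul_zero]
      · rw [ih p.1 (by omega)]
    rw [e3, ← e2] at e1
    have : (n : ℚ) ≠ 0 := by exact_mod_cast hn.ne'
    exact mul_left_cancel₀ this e1

end Pool.Agent.KS6_20.PQ
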